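import Mathlib

set_option autoImplicit false

/-!
# Sets of integers all of whose differences have a prescribed image in a compact group

`g : ℕ → G` is completely multiplicative with values in a compact commutative topological group.
For every `N` and every neighbourhood `W` of `g N` there are, at every scale `T`, sets of `K` multiples
of `Q` in `[0, C T]` with distances at least `T` all of whose differences `d` satisfy `g d ∈ W`.
(helper13)
-/

namespace Pool.Agent.V5helper13.BG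

open Filter Topology Finset

section Group

variable {G : Type*} [CommGroup G] [TopologicalSpace G] [IsTopologicalGroup G] [CompactSpace G]

/-- recurrence of powers -/
theorem recur (x : G) {V : Set G} (hV : V ∈ 𝓝 (1 : G)) : ∃ u : ℕ, 1 ≤ u ∧ x ^ u ∈ V := by
  obtain ⟨y, hy⟩ := exists_clusterPt_of_compactSpace (Filter.map (fun n : ℕ => x ^ n) atTop)
  have hy' : MapClusterPt y atTop (fun n : ℕ => x ^ n) := hy
  rw [mapClusterPt_iff_frequently] at hy'
  have hc : Continuous (fun p : G × G => p.1 / p.2) := continuous_div'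
  have h1 : (fun p : G × G => p.1 / p.2) ⁻¹' V ∈ 𝓝 (y, y) := by
    apply hc.continuousAt.preimage_mem_nhds
    simpa using hV
  rw [nhds_prod_eq] at h1
  obtain ⟨s, hs, t, ht, hst⟩ := Filter.mem_prod_iff.1 h1
  have hst' : s ∩ t ∈ 𝓝 y := inter_mem hs ht
  have hf := hy' (s ∩ t) hst'
  rw [frequently_atTop] at hf
  obtain ⟨n₁, -, hn₁⟩ := hf 0
  obtain ⟨n₂, hn₂, hn₂'⟩ := hf (n₁ + 1)
  refine ⟨n₂ - n₁, by omega, ?_⟩
  have h2 : (x ^ n₂, x ^ n₁) ∈ s ×ˢ t := ⟨hn₂'.1, hn₁.2⟩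
  have h3 := hst h2
  simp only [Set.mem_preimage] at h3
  have h4 : x ^ (n₂ - n₁) = x ^ n₂ / x ^ n₁ := by
    rw [eq_div_iff_mul_eq', mul_comm, ← pow_add]
    congr 1
    omega
  rw [h4]
  exact h3

/-- the return times of powers are syndetic -/
theorem syn (x : G) {V : Set G} (hV : V ∈ 𝓝 (1 : G)) :
    ∃ U : ℕ, ∀ b : ℕ, ∃ i ≤ U, x ^ (b + i) ∈ V := by
  obtain ⟨V₀, hV₀V, hV₀o, hV₀1⟩ := mem_nhds_iff.1 hV
  obtain ⟨V₁, hV₁, hV₁'⟩ := exists_open_nhds_one_mul_subset (hV₀o.mem_nhds hV₀1)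
  have hH : IsCompact (closure (Set.range fun n : ℕ => x ^ n)) := isClosed_closure.isCompact
  have hop : ∀ i : ℕ, IsOpen {y : G | x ^ i * y ∈ V₀} := fun i =>
    hV₀o.preimage (continuous_const.mul continuous_id)
  have hcov : closure (Set.range fun n : ℕ => x ^ n) ⊆ ⋃ i : ℕ, {y : G | x ^ i * y ∈ V₀} := by
    intro y hy
    have hc : Continuous (fun z : G => z⁻¹ * y) := continuous_inv.mul continuous_const
    have h1 : (fun z : G => z⁻¹ * y) ⁻¹' V₁ ∈ 𝓝 y := by
      apply hc.continuousAt.preimage_mem_nhds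
      simpa using hV₁.mem_nhds hV₁'.1
    obtain ⟨z, hz1, hz2⟩ := mem_closure_iff_nhds.1 hy _ h1
    obtain ⟨n, rfl⟩ := hz2
    obtain ⟨u, hu1, hu2⟩ := recur (x ^ (n + 1)) (hV₁.mem_nhds hV₁'.1)
    rw [Set.mem_iUnion]
    refine ⟨(n + 1) * u - n, ?_⟩
    have h2 : n ≤ (n + 1) * u := by nlinarith
    have h3 : x ^ ((n + 1) * u - n) * y = (x ^ (n + 1)) ^ u * ((x ^ n)⁻¹ * y) := by
      rw [← mul_assoc]
      congr 1
      rw [← pow_mul, eq_mul_inv_iff_mul_eq, ← pow_add]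
      congr 1
      omega
    show x ^ ((n + 1) * u - n) * y ∈ V₀
    rw [h3]
    exact hV₁'.2 (Set.mul_mem_mul hu2 hz1)
  obtain ⟨t, ht⟩ := hH.elim_finite_subcover _ hop hcov
  refine ⟨t.sup id, fun b => ?_⟩
  have h1 := ht (subset_closure (Set.mem_range_self b))
  simp only [Set.mem_iUnion] at h1
  obtain ⟨i, hi, hi2⟩ := h1
  refine ⟨i, Finset.le_sup (f := id) hi, hV₀V ?_⟩
  rw [add_comm, pow_add]
  exact hi2

/-- a finite set of translates of a neighbourhood of `1` covers the group -/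
theorem fin_cover {V : Set G} (hV : V ∈ 𝓝 (1 : G)) : ∃ F : Finset G, ∀ z : G, ∃ y ∈ F, z / y ∈ V := by
  obtain ⟨V₀, hV₀V, hV₀o, hV₀1⟩ := mem_nhds_iff.1 hV
  obtain ⟨t, ht⟩ := isCompact_univ.elim_finite_subcover (fun y : G => {z : G | z / y ∈ V₀})
    (fun y => hV₀o.preimage (continuous_id.div' continuous_const)) (fun z _ => by
      rw [Set.mem_iUnion]
      refine ⟨z, ?_⟩
      show z / z ∈ V₀
      rw [div_self']
      exact hV₀1)
  refine ⟨t, fun z => ?_⟩
  have h1 := ht (Set.mem_univ z)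
  simp only [Set.mem_iUnion] at h1
  obtain ⟨y, hy, hz⟩ := h1
  exact ⟨y, hy, hV₀V hz⟩

end Group

/-- sums of the first terms of a stream -/
def ps : Stream' ℕ+ → ℕ → ℕ+
  | a, 0 => a.head
  | a, n + 1 => a.head + ps a.tail n

theorem ps_mem (n : ℕ) : ∀ a : Stream' ℕ+, ps a n ∈ Hindman.FS a := by
  induction n with
  | zero => intro a; exact Hindman.FS.head a
  | succ n ih => intro a; exact Hindman.FS.cons a _ (ih a.tail)

/-- partial sums -/
def su (a : Stream' ℕ+) : ℕ → ℕ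
  | 0 => 0
  | j + 1 => su a j + (a.get j : ℕ)

theorem su_tail (a : Stream' ℕ+) (j : ℕ) : su a (j + 1) = (a.head : ℕ) + su a.tail j := by
  induction j with
  | zero => simp [su, Stream'.head]
  | succ j ih =>
    rw [su, ih, su]
    have : a.get (j + 1) = a.tail.get j := rfl
    rw [this]
    ring

theorem ps_eq (n : ℕ) : ∀ a : Stream' ℕ+, (ps a n : ℕ) = su a (n + 1) := by
  induction n with
  | zero => intro a; simp [ps, su, Stream'.head]
  | succ n ih =>
    intro a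
    rw [ps, PNat.add_coe, ih, ← su_tail]

theorem su_drop (a : Stream' ℕ+) (i j : ℕ) : su a (i + j) = su a i + su (a.drop i) j := by
  induction j with
  | zero => simp [su]
  | succ j ih =>
    rw [← add_assoc, su, ih, su]
    have : (a.drop i).get j = a.get (i + j) := by
      rw [Stream'.get_drop]
    rw [this]
    ring

theorem su_lt (a : Stream' ℕ+) {i j : ℕ} (h : i < j) : su a i < su a j := by
  obtain ⟨n, rfl⟩ := Nat.exists_eq_add_of_lt h
  rw [add_assoc, su_drop, ← ps_eq]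
  have := (ps (a.drop i) n).pos
  omega

/-- **Differences with prescribed multiplicative characters at every scale.** -/
theorem comb {G : Type*} [CommGroup G] [TopologicalSpace G] [IsTopologicalGroup G] [CompactSpace G]
    (g : ℕ → G) (hg : ∀ m n : ℕ, m ≠ 0 → n ≠ 0 → g (m * n) = g m * g n) (N : ℕ) (hN : N ≠ 0)
    (W : Set G) (hW : W ∈ 𝓝 (g N)) (K Q : ℕ) (hQ : Q ≠ 0) :
    ∃ C : ℕ, 1 ≤ C ∧ ∀ T : ℕ, 1 ≤ T → ∃ s : Finset ℕ, s.card = K ∧ (∀ l ∈ s, Q ∣ l) ∧
      (∀ l ∈ s, l ≤ C * T) ∧ ∀ l ∈ s, ∀ l' ∈ s, l < l' → T ≤ l' - l ∧ g (l' - l) ∈ W := by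
  classical
  have hg1 : g 1 = 1 := by
    have h := hg 1 1 one_ne_zero one_ne_zero
    rw [mul_one] at h
    exact (mul_eq_left.1 h.symm)
  have hpow : ∀ (m : ℕ), m ≠ 0 → ∀ n : ℕ, g (m ^ n) = g m ^ n := by
    intro m hm n
    induction n with
    | zero => rw [pow_zero, pow_zero, hg1]
    | succ n ih => rw [pow_succ, hg _ _ (pow_ne_zero _ hm) hm, ih, pow_succ]
  -- the neighbourhoods
  have hW' : {x : G | g N * x ∈ W} ∈ 𝓝 (1 : G) := by
    have hc : Continuous (fun x : G => g N * x) := continuous_const.mul continuous_id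
    apply hc.continuousAt.preimage_mem_nhds
    rwa [mul_one]
  obtain ⟨V₄, hV₄, hV₄'⟩ := exists_nhds_one_split4 hW'
  obtain ⟨V₁, hV₁, hV₁'⟩ := exists_nhds_split_inv hV₄
  -- common value of the differences
  obtain ⟨F, hF⟩ := fin_cover hV₁
  have hfin : (Set.range (fun y : F => {d : ℕ+ | g d / (y : G) ∈ V₁})).Finite := Set.finite_range _
  obtain ⟨c, hc, a, ha⟩ := Hindman.exists_FS_of_finite_cover _ hfin (by
    intro d _
    obtain ⟨y, hy, hd⟩ := hF (g d)
    rw [Set.mem_sUnion]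
    exact ⟨_, ⟨⟨y, hy⟩, rfl⟩, hd⟩)
  obtain ⟨⟨y, hy⟩, rfl⟩ := hc
  have hdiff : ∀ i j, i < j → g (su a j - su a i) / y ∈ V₁ := by
    intro i j hij
    obtain ⟨n, rfl⟩ := Nat.exists_eq_add_of_lt hij
    have h1 : su a (i + n + 1) - su a i = (ps (a.drop i) n : ℕ) := by
      rw [add_assoc, su_drop, ps_eq]
      omega
    rw [h1]
    exact ha (Hindman.FS_iter_tail_sub_FS a i (ps_mem n (a.drop i)))
  set δ : ℕ := su a 1 - su a 0 with hδ
  have hδ0 : δ ≠ 0 := by
    have := su_lt a (zero_lt_one)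
    omega
  have hδV := hdiff 0 1 zero_lt_one
  rw [← hδ] at hδV
  obtain ⟨e, he1, he⟩ := recur (g δ) hV₄
  obtain ⟨u, hu1, hu⟩ := recur (g Q) hV₄
  obtain ⟨U, hU⟩ := syn (g 2) hV₄
  set M₀ : ℕ := N * δ ^ (e - 1) * Q ^ u with hM₀
  have hM₀0 : M₀ ≠ 0 := by
    rw [hM₀]
    exact mul_ne_zero (mul_ne_zero hN (pow_ne_zero _ hδ0)) (pow_ne_zero _ hQ)
  refine ⟨M₀ * 2 ^ U * 2 * su a K + 1, by omega, fun T hT => ?_⟩
  obtain ⟨b₀, hb1, hb2⟩ : ∃ b₀ : ℕ, T ≤ 2 ^ b₀ ∧ 2 ^ b₀ ≤ 2 * T := by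
    refine ⟨Nat.clog 2 T, Nat.le_pow_clog (by norm_num) T, ?_⟩
    rcases Nat.eq_or_lt_of_le hT with h1 | h1
    · rw [← h1]
      simp
    · have h2 := Nat.pow_pred_clog_lt_self (b := 2) (by norm_num) h1
      have h3 : 0 < Nat.clog 2 T := Nat.clog_pos (by norm_num) (by omega)
      have h4 : 2 ^ Nat.clog 2 T = 2 * 2 ^ (Nat.clog 2 T).pred := by
        rw [← pow_succ']
        congr 1
        have := Nat.succ_pred_eq_of_pos h3
        omega
      omega
  obtain ⟨i, hi, hiV⟩ := hU b₀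
  set M : ℕ := M₀ * 2 ^ (b₀ + i) with hM
  have hM0 : M ≠ 0 := mul_ne_zero hM₀0 (pow_ne_zero _ two_ne_zero)
  have hMT : T ≤ M := by
    rw [hM]
    calc T ≤ 2 ^ b₀ := hb1
      _ ≤ 2 ^ (b₀ + i) := Nat.pow_le_pow_right (by norm_num) (Nat.le_add_right _ _)
      _ ≤ M₀ * 2 ^ (b₀ + i) := Nat.le_mul_of_pos_left _ (Nat.pos_of_ne_zero hM₀0)
  have hMC : M ≤ M₀ * 2 ^ U * 2 * T := by
    rw [hM, pow_add]
    calc M₀ * (2 ^ b₀ * 2 ^ i) ≤ M₀ * (2 * T * 2 ^ U) := by
          apply Nat.mul_le_mul_left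
          exact Nat.mul_le_mul hb2 (Nat.pow_le_pow_right (by norm_num) hi)
      _ = M₀ * 2 ^ U * 2 * T := by ring
  have hinj : Function.Injective (fun j => M * su a j) := by
    intro j j' h
    have h1 : su a j = su a j' := Nat.eq_of_mul_eq_mul_left (Nat.pos_of_ne_zero hM0) h
    rcases lt_trichotomy j j' with h2 | h2 | h2
    · have := su_lt a h2
      omega
    · exact h2
    · have := su_lt a h2
      omega
  refine ⟨(range K).image (fun j => M * su a j), ?_, ?_, ?_, ?_⟩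
  · rw [card_image_of_injective _ hinj, card_range]
  · intro l hl
    obtain ⟨j, -, rfl⟩ := mem_image.1 hl
    apply Dvd.dvd.mul_right
    rw [hM, hM₀]
    apply Dvd.dvd.mul_right
    apply Dvd.dvd.mul_left
    exact dvd_pow_self Q (by omega)
  · intro l hl
    obtain ⟨j, hj, rfl⟩ := mem_image.1 hl
    have h1 : su a j ≤ su a K := (su_lt a (mem_range.1 hj)).le
    calc M * su a j ≤ (M₀ * 2 ^ U * 2 * T) * su a K := Nat.mul_le_mul hMC h1
      _ = (M₀ * 2 ^ U * 2 * su a K) * T := by ring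
      _ ≤ (M₀ * 2 ^ U * 2 * su a K + 1) * T := Nat.mul_le_mul_right _ (Nat.le_succ _)
  · intro l hl l' hl' hll
    obtain ⟨j, hj, rfl⟩ := mem_image.1 hl
    obtain ⟨j', hj', rfl⟩ := mem_image.1 hl'
    have hjj : j < j' := by
      by_contra hcon
      push Not at hcon
      rcases hcon.eq_or_lt with h1 | h1
      · rw [h1] at hll
        exact lt_irrefl _ hll
      · have h2 := Nat.mul_le_mul_left M (su_lt a h1).le
        omega
    have hsub : M * su a j' - M * su a j = M * (su a j' - su a j) := (Nat.mul_sub _ _ _).symm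
    have hpos : su a j' - su a j ≠ 0 := by
      have := su_lt a hjj
      omega
    rw [hsub]
    refine ⟨hMT.trans (Nat.le_mul_of_pos_right _ (Nat.pos_of_ne_zero hpos)), ?_⟩
    have h1 : g (M * (su a j' - su a j)) = g N * ((g δ) ^ e * (g Q) ^ u * (g 2) ^ (b₀ + i) *
        ((g (su a j' - su a j) / y) / (g δ / y))) := by
      rw [hg M _ hM0 hpos, hM, hg _ _ hM₀0 (pow_ne_zero _ two_ne_zero), hM₀,
        hg _ _ (mul_ne_zero hN (pow_ne_zero _ hδ0)) (pow_ne_zero _ hQ),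
        hg _ _ hN (pow_ne_zero _ hδ0), hpow 2 two_ne_zero, hpow δ hδ0, hpow Q hQ,
        div_div_div_cancel_right]
      have h2 : (g δ) ^ e = (g δ) ^ (e - 1) * g δ := by
        rw [← pow_succ]
        congr 1
        omega
      rw [h2]
      rw [div_eq_mul_inv]
      have h3 : g δ * (g δ)⁻¹ = 1 := mul_inv_cancel _
      calc g N * g δ ^ (e - 1) * g Q ^ u * g 2 ^ (b₀ + i) * g (su a j' - su a j)
          = g N * g δ ^ (e - 1) * g Q ^ u * g 2 ^ (b₀ + i) * g (su a j' - su a j) *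
            (g δ * (g δ)⁻¹) := by rw [h3, mul_one]
        _ = _ := by
          simp only [mul_assoc, mul_comm, mul_left_comm]
    rw [h1]
    exact hV₄' he hu hiV (hV₁' _ (hdiff j j' hjj) _ hδV)

end Pool.Agent.V5helper13.BG
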