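import Pool.Agent.V5helper13.BG.Comb

set_option autoImplicit false

/-!
# The positions in a translate of a dense set (helper13)
-/

namespace Pool.Agent.V5helper13.BG

open Filter Topology Finset

open Classical in
/-- averaging over the translates -/
theorem avg (δ : ℝ) (s : Finset ℕ) (E : Set ℤ) (u : ℤ) (H B : ℕ) (hH : 0 < H)
    (hs : ∀ l ∈ s, l ≤ B) (hB : (B : ℝ) ≤ δ / 2 * H)
    (hE : δ * H ≤ ({t : ℕ | t < H ∧ u + t ∈ E}.ncard : ℝ)) :
    ∃ x : ℕ, x < H ∧ δ / 2 * s.card ≤ ((s.filter (fun l : ℕ => u + ((x + l : ℕ) : ℤ) ∈ E)).card : ℝ) := by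
  have hEc : {t : ℕ | t < H ∧ u + t ∈ E}.ncard = ((range H).filter (fun t : ℕ => u + (t : ℤ) ∈ E)).card := by
    rw [← Set.ncard_coe_finset]
    congr 1
    ext t
    simp
  rw [hEc] at hE
  have h1 : ∀ l ∈ s, δ / 2 * H ≤ (((range H).filter (fun x : ℕ => u + ((x + l : ℕ) : ℤ) ∈ E)).card : ℝ) := by
    intro l hl
    have h2 : ((range H).filter (fun t : ℕ => u + (t : ℤ) ∈ E)).card ≤
        ((range H).filter (fun x : ℕ => u + ((x + l : ℕ) : ℤ) ∈ E)).card + l := by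
      have h3 : ((range H).filter (fun t : ℕ => u + (t : ℤ) ∈ E)) ⊆
          ((range H).filter (fun x : ℕ => u + ((x + l : ℕ) : ℤ) ∈ E)).image (fun x => x + l) ∪ range l := by
        intro t ht
        rw [mem_filter, mem_range] at ht
        rw [mem_union, mem_image, mem_range]
        by_cases htl : t < l
        · exact Or.inr htl
        · left
          refine ⟨t - l, ?_, by omega⟩
          rw [mem_filter, mem_range]
          refine ⟨by omega, ?_⟩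
          rw [Nat.sub_add_cancel (by omega)]
          exact ht.2
      refine (card_le_card h3).trans ((card_union_le _ _).trans ?_)
      rw [card_range]
      exact Nat.add_le_add_right card_image_le _
    have h3 : (((range H).filter (fun t : ℕ => u + (t : ℤ) ∈ E)).card : ℝ) ≤
        ((range H).filter (fun x : ℕ => u + ((x + l : ℕ) : ℤ) ∈ E)).card + l := by exact_mod_cast h2
    have h4 : (l : ℝ) ≤ B := by exact_mod_cast hs l hl
    linarith
  have h2 : ∑ x ∈ range H, δ / 2 * (s.card : ℝ) ≤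
      ∑ x ∈ range H, ((s.filter (fun l : ℕ => u + ((x + l : ℕ) : ℤ) ∈ E)).card : ℝ) := by
    have h3 : ∑ x ∈ range H, ((s.filter (fun l : ℕ => u + ((x + l : ℕ) : ℤ) ∈ E)).card : ℝ) =
        ∑ l ∈ s, (((range H).filter (fun x : ℕ => u + ((x + l : ℕ) : ℤ) ∈ E)).card : ℝ) := by
      have h4 : ∑ x ∈ range H, (s.filter (fun l : ℕ => u + ((x + l : ℕ) : ℤ) ∈ E)).card =
          ∑ l ∈ s, ((range H).filter (fun x : ℕ => u + ((x + l : ℕ) : ℤ) ∈ E)).card := by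
        simp only [card_filter]
        exact sum_comm
      exact_mod_cast h4
    rw [h3, sum_const, card_range, nsmul_eq_mul]
    calc (H : ℝ) * (δ / 2 * s.card) = ∑ l ∈ s, δ / 2 * (H : ℝ) := by
          rw [sum_const, nsmul_eq_mul]
          ring
      _ ≤ _ := sum_le_sum h1
  obtain ⟨x, hx, hx2⟩ := exists_le_of_sum_le (nonempty_range_iff.2 hH.ne') h2
  exact ⟨x, mem_range.1 hx, hx2⟩

open Classical in
/-- **Positions with prescribed multiplicative characters in a translate of a dense set.** -/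
theorem comb2 {G : Type*} [CommGroup G] [TopologicalSpace G] [IsTopologicalGroup G] [CompactSpace G]
    (g : ℕ → G) (hg : ∀ m n : ℕ, m ≠ 0 → n ≠ 0 → g (m * n) = g m * g n) (N : ℕ) (hN : N ≠ 0)
    (W : Set G) (hW : W ∈ 𝓝 (g N)) (K Q : ℕ) (hQ : Q ≠ 0) (δ : ℝ) (hδ : 0 < δ) :
    ∃ C : ℕ, 1 ≤ C ∧ ∀ T : ℕ, 1 ≤ T → ∀ (E : Set ℤ) (u : ℤ) (H : ℕ), C * T ≤ H →
      δ * H ≤ ({t : ℕ | t < H ∧ u + t ∈ E}.ncard : ℝ) →
      ∃ (v : ℤ) (s : Finset ℕ), s.card = K ∧ (∀ l ∈ s, v + (l : ℤ) ∈ E) ∧ (∀ l ∈ s, Q ∣ l) ∧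
      (∀ l ∈ s, l ≤ C * T) ∧ ∀ l ∈ s, ∀ l' ∈ s, l < l' → T ≤ l' - l ∧ g (l' - l) ∈ W := by
  obtain ⟨K', hK'⟩ : ∃ K' : ℕ, (K : ℝ) ≤ δ / 2 * K' := by
    obtain ⟨K', hK'⟩ := exists_nat_ge ((K : ℝ) / (δ / 2))
    refine ⟨K', ?_⟩
    rw [div_le_iff₀ (by positivity)] at hK'
    linarith
  obtain ⟨C', hC', hcomb⟩ := comb g hg N hN W hW K' Q hQ
  obtain ⟨C₁, hC₁⟩ := exists_nat_ge ((C' : ℝ) / (δ / 2))
  rw [div_le_iff₀ (by positivity)] at hC₁
  refine ⟨max C' C₁, hC'.trans (le_max_left _ _), fun T hT E u H hH hE => ?_⟩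
  obtain ⟨s', hs'c, hs'Q, hs'C, hs'W⟩ := hcomb T hT
  have hH0 : 0 < H := lt_of_lt_of_le (Nat.mul_pos (hC'.trans (le_max_left _ _)) hT) hH
  obtain ⟨x, -, hx⟩ := avg δ s' E u H (C' * T) hH0 hs'C (by
    have h1 : C₁ * T ≤ H := (Nat.mul_le_mul_right _ (le_max_right _ _)).trans hH
    have h2 : (C₁ : ℝ) * T ≤ H := by exact_mod_cast h1
    have h3 : (0 : ℝ) ≤ T := Nat.cast_nonneg T
    push_cast
    calc (C' : ℝ) * T ≤ C₁ * (δ / 2) * T := mul_le_mul_of_nonneg_right hC₁ h3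
      _ = δ / 2 * (C₁ * T) := by ring
      _ ≤ δ / 2 * H := mul_le_mul_of_nonneg_left h2 (by positivity)) hE
  rw [hs'c] at hx
  have h1 : (K : ℝ) ≤ ((s'.filter (fun l : ℕ => u + ((x + l : ℕ) : ℤ) ∈ E)).card : ℝ) := hK'.trans hx
  have h2 : K ≤ (s'.filter (fun l : ℕ => u + ((x + l : ℕ) : ℤ) ∈ E)).card := by exact_mod_cast h1
  obtain ⟨s, hs, hsK⟩ := exists_subset_card_eq h2
  have hmem : ∀ l ∈ s, l ∈ s' ∧ u + ((x + l : ℕ) : ℤ) ∈ E := fun l hl => mem_filter.1 (hs hl)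
  refine ⟨u + x, s, hsK, ?_, ?_, ?_, ?_⟩
  · intro l hl
    have h3 := (hmem l hl).2
    push_cast at h3
    rwa [← add_assoc] at h3
  · exact fun l hl => hs'Q l (hmem l hl).1
  · exact fun l hl => (hs'C l (hmem l hl).1).trans (Nat.mul_le_mul_right _ (le_max_left _ _))
  · exact fun l hl l' hl' hll => hs'W l (hmem l hl).1 l' (hmem l' hl').1 hll

end Pool.Agent.V5helper13.BG
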