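import Pool.Agent.TH101.RG.TupMult
import Pool.Agent.TH101.RG.Pat

set_option autoImplicit false
set_option maxHeartbeats 4000000

/-!
# Blocks of consecutive primes at given positions (helper13)

From `Pool.Agent.TH101.RG.tuple_multiples` (helper101): for a set `s` of multiples of `K! d` in `[0, c f(X)]` there
are at least `X^(6/7)` blocks of `k + 1` consecutive primes in a translate `n + s`, `n ≡ a (mod d)`, isolated at the
record scale.
-/

namespace Pool.Agent.V5helper13.BG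

open Finset Filter Topology
open Pool.Agent.H256R2.SC (ff)
open Pool.Agent.H312R2.RG (ev_ff)

/-- the `i`-th prime -/
noncomputable abbrev p (i : ℕ) : ℕ := Nat.nth Nat.Prime i

/-- a block of consecutive primes in a translate of `s` -/
def BlockAt (k d a : ℕ) (c X : ℝ) (s : Finset ℕ) (r : ℕ) : Prop :=
  X < (p r : ℝ) ∧ (p (r + k) : ℝ) ≤ 4 * X ∧
    (1 ≤ r ∧ c * ff X ≤ (p r : ℝ) - p (r - 1)) ∧
    ∃ n : ℕ, n ≡ a [MOD d] ∧ (∀ i ≤ k, ∃ l ∈ s, p (r + i) = n + l) ∧
      ∀ q : ℕ, q.Prime → |(q : ℝ) - p r| ≤ c * ff X → ∃ l ∈ s, q = n + l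

theorem blockAt_finite (k d a : ℕ) (c X : ℝ) (s : Finset ℕ) :
    {r : ℕ | BlockAt k d a c X s r}.Finite := by
  apply (Set.finite_Iic ⌊4 * X⌋₊).subset
  intro r hr
  have h1 : r ≤ p (r + k) := by
    refine le_trans (Nat.le_add_right r k) ?_
    exact (Nat.nth_strictMono Nat.infinite_setOfPred_prime).le_apply
  have h2 : (r : ℝ) ≤ 4 * X := le_trans (by exact_mod_cast h1) hr.2.1
  exact Set.mem_Iic.2 (Nat.le_floor h2)

open Classical in
theorem eng (k : ℕ) : ∃ K : ℕ, ∀ d : ℕ, Squarefree d → ∃ c : ℝ, 0 < c ∧ ∀ᶠ X : ℝ in atTop,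
    ∀ a : ℕ, a.Coprime d → ∀ s : Finset ℕ, s.card = K →
    (∀ l ∈ s, K.factorial * d ∣ l) → (∀ l ∈ s, (l : ℝ) ≤ c * ff X) →
    X ^ (6 / 7 : ℝ) ≤ ({r : ℕ | BlockAt k d a c X s r}.ncard : ℝ) := by
  obtain ⟨η, hη, HT⟩ := Pool.Agent.TH101.RG.tuple_multiples
  obtain ⟨m', hm'⟩ : ∃ m' : ℕ, m' = ⌈((k + 1 : ℕ) : ℝ) / η⌉₊ + 1 := ⟨_, rfl⟩
  have hm1 : 1 ≤ m' := by omega
  have hηm : ((k + 1 : ℕ) : ℝ) ≤ η * m' := by
    have h1 : ((k + 1 : ℕ) : ℝ) / η ≤ ⌈((k + 1 : ℕ) : ℝ) / η⌉₊ := Nat.le_ceil _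
    have h2 : ((k + 1 : ℕ) : ℝ) / η ≤ m' := by rw [hm']; push_cast; push_cast at h1; linarith
    rw [div_le_iff₀ hη] at h2
    linarith
  obtain ⟨K, hmK, HK⟩ := HT m' hm1
  obtain ⟨col, hcol⟩ := Pool.Agent.TH101.RG.exists_col K m' hm1 hmK
  refine ⟨K, fun d hd => ?_⟩
  obtain ⟨c, hc, hX⟩ := HK 1 0 1 d hd
  refine ⟨c / 2, by positivity, ?_⟩
  have hpow : ∀ᶠ X : ℝ in atTop, (K : ℝ) * X ^ (6 / 7 : ℝ) ≤ X ^ (7 / 8 : ℝ) := by
    filter_upwards [(tendsto_rpow_atTop (by norm_num : (0 : ℝ) < 1 / 56)).eventually_ge_atTop ((K : ℝ)),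
      eventually_gt_atTop (0 : ℝ)] with X h1 h2
    calc (K : ℝ) * X ^ (6 / 7 : ℝ) ≤ X ^ (1 / 56 : ℝ) * X ^ (6 / 7 : ℝ) :=
          mul_le_mul_of_nonneg_right h1 (Real.rpow_nonneg h2.le _)
      _ = X ^ (7 / 8 : ℝ) := by
          rw [← Real.rpow_add h2]
          norm_num
  filter_upwards [hX, ev_ff c hc, eventually_ge_atTop (4 : ℝ), hpow] with X hXX hff hX4 hXp
  intro a ha s hs hsd hsB
  obtain ⟨f1, f2, f3⟩ := hff
  by_contra hcon
  push Not at hcon
  have hfin := blockAt_finite k d a (c / 2) X s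
  rw [Set.ncard_eq_toFinset_card _ hfin] at hcon
  set bad : Finset ℕ := hfin.toFinset.biUnion (fun r => s.image (fun l => p r - l)) with hbadd
  have hbad : (bad.card : ℝ) ≤ X ^ (7 / 8 : ℝ) := by
    have h1 : bad.card ≤ ∑ r ∈ hfin.toFinset, K := by
      refine Finset.card_biUnion_le.trans (Finset.sum_le_sum fun r _ => ?_)
      exact card_image_le.trans hs.le
    rw [sum_const, smul_eq_mul] at h1
    have h2 : (bad.card : ℝ) ≤ (hfin.toFinset.card : ℝ) * K := by exact_mod_cast h1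
    refine h2.trans (le_trans ?_ hXp)
    rw [mul_comm]
    exact mul_le_mul_of_nonneg_left hcon.le (Nat.cast_nonneg _)
  set e := s.orderEmbOfFin hs with he
  have hes : ∀ j, e j ∈ s := fun j => s.orderEmbOfFin_mem hs j
  obtain ⟨n, hXn, hn3, hnb, hnd, ⟨E, hE, hE2⟩, hmain⟩ := hXX 1 0 one_ne_zero (by simp) (by simp) (by simp)
      (fun j => e j) e.injective
      (fun j => by
        have h1 := hsB _ (hes j)
        have h2 : 0 ≤ c * ff X := mul_nonneg hc.le f2
        linarith)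
      (Pool.Agent.TH101.RG.adm_of K _ (fun q hq hqK => ⟨1, fun j hqd => by
        have h1 : q ∣ e j := dvd_trans (Dvd.dvd.mul_right ((Nat.Prime.dvd_factorial hq).2 hqK) d) (hsd _ (hes j))
        exact hq.one_lt.ne' (Nat.dvd_one.1 ((Nat.dvd_add_left h1).1 hqd))⟩)) a
      (fun j => by
        obtain ⟨w, hw⟩ := dvd_trans (Dvd.intro_left _ rfl) (hsd _ (hes j))
        rw [hw, Nat.coprime_add_mul_left_left]
        exact ha)
      col hcol bad hbad
  have hiso : ∀ q : ℕ, q.Prime → |(q : ℝ) - n| ≤ c * ff X → ∃ l ∈ s, q = n + l := by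
    intro q hq hqn
    obtain ⟨j, hj⟩ := hmain 1 1 (by simp) (by simp) (by simp) (by simp) q hq (by
      push_cast
      simpa using hqn)
    exact ⟨e j, hes j, hj⟩
  have hmany : k + 1 ≤ (s.filter (fun l => (n + l).Prime)).card := by
    have h1 : ((k + 1 : ℕ) : ℝ) ≤ E.card := hηm.trans hE
    have h2 : k + 1 ≤ E.card := by exact_mod_cast h1
    refine h2.trans ?_
    have hex : ∀ x : Fin m', ∃ j : Fin K, x ∈ E → col j = x ∧ (n + e j).Prime := by
      intro x
      by_cases hx : x ∈ E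
      · obtain ⟨j, hj⟩ := hE2 x hx
        exact ⟨j, fun _ => hj⟩
      · exact ⟨⟨0, by omega⟩, fun h => absurd h hx⟩
    choose g hg using hex
    apply card_le_card_of_injOn (fun x : Fin m' => e (g x))
    · intro x hx
      rw [mem_coe, mem_filter]
      exact ⟨hes _, (hg x hx).2⟩
    · intro x hx y hy hxy
      have h3 : g x = g y := e.injective hxy
      rw [← (hg x hx).1, ← (hg y hy).1, h3]
  -- the index
  obtain ⟨B, hBd⟩ : ∃ B : ℕ, B = ⌊c / 2 * ff X⌋₊ := ⟨_, rfl⟩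
  have hcf : 0 ≤ c / 2 * ff X := by positivity
  have hsB' : ∀ l ∈ s, l ≤ B := fun l hl => by
    rw [hBd]
    exact Nat.le_floor (hsB l hl)
  have hBr : (B : ℝ) ≤ c / 2 * ff X := by
    rw [hBd]
    exact Nat.floor_le hcf
  set r : ℕ := Nat.count Nat.Prime n with hr
  have hcount : r + (k + 1) ≤ Nat.count Nat.Prime (n + (B + 1)) := by
    rw [Nat.count_add, ← hr]
    apply Nat.add_le_add_left
    rw [Nat.count_eq_card_filter_range]
    refine hmany.trans ?_
    refine Finset.card_le_card ?_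
    intro l hl
    rw [Finset.mem_filter] at hl
    rw [Finset.mem_filter, Finset.mem_range]
    exact ⟨Nat.lt_succ_of_le (hsB' l hl.1), hl.2⟩
  have hprime : ∀ i, (p i).Prime := fun i => Nat.prime_nth_prime i
  have hlo : ∀ i, n ≤ p (r + i) := by
    intro i
    have h1 : p r ≤ p (r + i) :=
      Nat.nth_monotone Nat.infinite_setOfPred_prime (Nat.le_add_right r i)
    refine le_trans ?_ h1
    by_contra hc
    push Not at hc
    have h2 : Nat.count Nat.Prime (p r + 1) ≤ Nat.count Nat.Prime n :=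
      Nat.count_monotone _ hc
    rw [Nat.count_succ, Nat.count_nth_of_infinite Nat.infinite_setOfPred_prime,
      if_pos (hprime r)] at h2
    omega
  have hhi : ∀ i, i ≤ k → p (r + i) ≤ n + B := by
    intro i hi
    have h1 : p (r + i) < n + (B + 1) := Nat.nth_lt_of_lt_count (by omega)
    omega
  have hform : ∀ i ≤ k, ∃ l ∈ s, p (r + i) = n + l := by
    intro i hi
    apply hiso _ (hprime _)
    have h1 : (n : ℝ) ≤ p (r + i) := by exact_mod_cast hlo i
    have h2 : (p (r + i) : ℝ) ≤ n + B := by exact_mod_cast hhi i hi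
    rw [abs_of_nonneg (by linarith)]
    linarith
  have hn4 : 4 < n := by
    have h1 : (4 : ℝ) < n := by linarith
    exact_mod_cast h1
  have hr1 : 1 ≤ r := by
    have h1 : Nat.count Nat.Prime 3 ≤ Nat.count Nat.Prime n := Nat.count_monotone _ (by omega)
    have h2 : Nat.count Nat.Prime 3 = 1 := by
      rw [Nat.count_eq_card_filter_range]
      decide
    omega
  have hpr : p (r - 1) < n := Nat.nth_lt_of_lt_count (by omega)
  have hprev : c * ff X < (n : ℝ) - p (r - 1) := by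
    by_contra hc'
    push Not at hc'
    have h1 : (p (r - 1) : ℝ) < n := by exact_mod_cast hpr
    obtain ⟨l, -, hl⟩ := hiso (p (r - 1)) (hprime _) (by
      rw [abs_sub_comm, abs_of_nonneg (by linarith)]
      exact hc')
    omega
  have hn0 : (n : ℝ) ≤ p r := by exact_mod_cast hlo 0
  have hr_mem : BlockAt k d a (c / 2) X s r := by
    refine ⟨?_, ?_, ⟨hr1, ?_⟩, n, hnd, hform, ?_⟩
    · linarith
    · have h1 : (p (r + k) : ℝ) ≤ n + B := by exact_mod_cast hhi k le_rfl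
      linarith
    · linarith
    · intro q hq hqr
      apply hiso q hq
      have h1 : (p r : ℝ) ≤ n + B := by exact_mod_cast hhi 0 (Nat.zero_le _)
      have h2 : |(p r : ℝ) - n| ≤ B := by
        rw [abs_of_nonneg (by linarith)]
        linarith
      have h3 := abs_add_le ((q : ℝ) - p r) ((p r : ℝ) - n)
      rw [sub_add_sub_cancel] at h3
      linarith
  obtain ⟨l, hl, hln⟩ := hform 0 (Nat.zero_le _)
  rw [add_zero] at hln
  apply hnb
  rw [hbadd, mem_biUnion]
  refine ⟨r, hfin.mem_toFinset.2 hr_mem, ?_⟩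
  rw [mem_image]
  exact ⟨l, hl, by omega⟩

end Pool.Agent.V5helper13.BG
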