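import Pool.Agent.V5helper13.BG.Scale
import Pool.Agent.V5helper13.BG.Eng
import Pool.Agent.H312R2.RG.C1

set_option autoImplicit false
set_option maxHeartbeats 4000000

/-!
# Multiplicative characters of record gaps (helper13)
-/

namespace Pool.Agent.V5helper13.BG

open Filter Topology Finset
open Pool.Agent.H256R2.SC (ff)
open Pool.Agent.H312R2.RG (ev_ff c1_ff_log)

/-- at least `δ` times its length elements in some interval of length at least `z` -/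
def DenseS (E : Set ℤ) (δ z : ℝ) : Prop :=
  ∃ (u : ℤ) (H : ℕ), z ≤ H ∧ δ * H ≤ (Set.ncard {t : ℕ | t < H ∧ u + t ∈ E} : ℝ)

theorem ev_large (A : ℝ) : ∀ᶠ X : ℝ in atTop, A ≤ ff X := by
  filter_upwards [c1_ff_log (max A 0), Real.tendsto_log_atTop.eventually_ge_atTop 1] with X h1 h2
  have h3 : 0 ≤ max A 0 := le_max_right _ _
  have h4 : A ≤ max A 0 := le_max_left _ _
  nlinarith

/-- **Record gaps.** -/
theorem rec_gaps {G : Type*} [CommGroup G] [TopologicalSpace G] [IsTopologicalGroup G] [CompactSpace G]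
    [T2Space G] (F : Type*) [CommGroup F] [Finite F] (g : ℕ → G) (hg : Mul g) (N : ℕ) (hN : N ≠ 0)
    (W : Set G) (hW : W ∈ 𝓝 (g N)) (k q : ℕ) (hq : Squarefree q) (δ : ℝ) (hδ : 0 < δ) :
    ∃ c : ℝ, 0 < c ∧ ∀ᶠ X : ℝ in atTop, ∀ a : ℕ, a.Coprime q → ∀ h : ℕ → F, Mul h →
    ∀ E : Set ℤ, DenseS E δ (ff X) →
    X ^ (6 / 7 : ℝ) ≤ ({n : ℕ | (X < (p n : ℝ) ∧ (p (n + k) : ℝ) ≤ 4 * X ∧ (∀ i ≤ k, p (n + i) ≡ a [MOD q]) ∧
      (∃ s : ℤ, ∀ i ≤ k, (p (n + i) : ℤ) + s ∈ E) ∧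
      1 ≤ n ∧ c * ff X ≤ (p n : ℝ) - p (n - 1) ∧ ∀ i < k, c * ff X ≤ (p (n + i + 1) : ℝ) - p (n + i)) ∧
      ∀ i j, i < j → j ≤ k → g (p (n + j) - p (n + i)) ∈ W ∧ h (p (n + j) - p (n + i)) = h N}.ncard : ℝ) := by
  obtain ⟨K, hK⟩ := eng k
  obtain ⟨c₀, hc₀, hX⟩ := hK q hq
  have hq0 : q ≠ 0 := hq.ne_zero
  obtain ⟨C, hC, hsc⟩ := scale F g hg N hN W hW K (K.factorial * q)
    (mul_ne_zero (Nat.factorial_ne_zero K) hq0) δ hδ
  have hC0 : (0 : ℝ) < C := by exact_mod_cast hC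
  obtain ⟨c₁, hc₁⟩ : ∃ c₁ : ℝ, c₁ = min c₀ 1 := ⟨_, rfl⟩
  have hc₁0 : 0 < c₁ := by rw [hc₁]; exact lt_min hc₀ one_pos
  have hc₁c : c₁ ≤ c₀ := by rw [hc₁]; exact min_le_left _ _
  have hc₁1 : c₁ ≤ 1 := by rw [hc₁]; exact min_le_right _ _
  refine ⟨c₁ / (2 * C), by positivity, ?_⟩
  filter_upwards [hX, ev_large (2 * C / c₁), ev_large 0] with X hXX hXl hX0
  intro a ha h hh E hE
  obtain ⟨T, hTd⟩ : ∃ T : ℕ, T = ⌊c₁ * ff X / C⌋₊ := ⟨_, rfl⟩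
  have hT2 : 2 ≤ c₁ * ff X / C := by
    rw [div_le_iff₀ hc₁0] at hXl
    rw [le_div_iff₀ hC0]
    linarith
  have hTle : (T : ℝ) ≤ c₁ * ff X / C := by
    rw [hTd]
    exact Nat.floor_le (by linarith)
  have hTge : c₁ / (2 * C) * ff X ≤ T := by
    have h1 : c₁ * ff X / C < T + 1 := by
      rw [hTd]
      exact Nat.lt_floor_add_one _
    have h2 : c₁ / (2 * C) * ff X = (c₁ * ff X / C) / 2 := by ring
    rw [h2]
    linarith
  have hT1 : 1 ≤ T := by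
    rw [hTd]
    apply Nat.le_floor
    push_cast
    linarith
  have hCT : (C : ℝ) * T ≤ c₁ * ff X := by
    rw [le_div_iff₀ hC0] at hTle
    linarith
  obtain ⟨u, H, hH, hEH⟩ := hE
  have hCTH : C * T ≤ H := by
    have h1 : (C : ℝ) * T ≤ H := by
      refine hCT.trans (le_trans ?_ hH)
      nlinarith
    exact_mod_cast h1
  obtain ⟨v, s, hsK, hsE, hsQ, hsC, hsW⟩ := hsc h hh T hT1 E u H hCTH hEH
  have hsB : ∀ l ∈ s, (l : ℝ) ≤ c₀ * ff X := by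
    intro l hl
    have h1 : (l : ℝ) ≤ C * T := by exact_mod_cast hsC l hl
    have h2 : c₁ * ff X ≤ c₀ * ff X := mul_le_mul_of_nonneg_right hc₁c hX0
    linarith
  refine (hXX a ha s hsK hsQ hsB).trans ?_
  have hcc : c₁ / (2 * C) * ff X ≤ c₀ * ff X := by
    apply mul_le_mul_of_nonneg_right _ hX0
    have h1 : (1 : ℝ) ≤ C := by exact_mod_cast hC
    rw [div_le_iff₀ (by positivity)]
    nlinarith
  have hfin : {n : ℕ | (X < (p n : ℝ) ∧ (p (n + k) : ℝ) ≤ 4 * X ∧ (∀ i ≤ k, p (n + i) ≡ a [MOD q]) ∧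
      (∃ s : ℤ, ∀ i ≤ k, (p (n + i) : ℤ) + s ∈ E) ∧
      1 ≤ n ∧ c₁ / (2 * C) * ff X ≤ (p n : ℝ) - p (n - 1) ∧
        ∀ i < k, c₁ / (2 * C) * ff X ≤ (p (n + i + 1) : ℝ) - p (n + i)) ∧
      ∀ i j, i < j → j ≤ k → g (p (n + j) - p (n + i)) ∈ W ∧ h (p (n + j) - p (n + i)) = h N}.Finite := by
    apply (Set.finite_Iic ⌊4 * X⌋₊).subset
    intro r hr
    have h1 : r ≤ p (r + k) := by
      refine le_trans (Nat.le_add_right r k) ?_
      exact (Nat.nth_strictMono Nat.infinite_setOfPred_prime).le_apply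
    have h2 : (r : ℝ) ≤ 4 * X := le_trans (by exact_mod_cast h1) hr.1.2.1
    exact Set.mem_Iic.2 (Nat.le_floor h2)
  have hsub : {r : ℕ | BlockAt k q a c₀ X s r} ⊆
    {n : ℕ | (X < (p n : ℝ) ∧ (p (n + k) : ℝ) ≤ 4 * X ∧ (∀ i ≤ k, p (n + i) ≡ a [MOD q]) ∧
      (∃ s : ℤ, ∀ i ≤ k, (p (n + i) : ℤ) + s ∈ E) ∧
      1 ≤ n ∧ c₁ / (2 * C) * ff X ≤ (p n : ℝ) - p (n - 1) ∧
        ∀ i < k, c₁ / (2 * C) * ff X ≤ (p (n + i + 1) : ℝ) - p (n + i)) ∧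
      ∀ i j, i < j → j ≤ k → g (p (n + j) - p (n + i)) ∈ W ∧ h (p (n + j) - p (n + i)) = h N} := by
    rintro r ⟨h1, h2, ⟨h3, h4⟩, m, h5, h6, -⟩
    have hdiff : ∀ i j, i < j → j ≤ k → T ≤ p (r + j) - p (r + i) ∧ g (p (r + j) - p (r + i)) ∈ W ∧
        h (p (r + j) - p (r + i)) = h N := by
      intro i j hij hj
      obtain ⟨l, hl, hl2⟩ := h6 i (hij.le.trans hj)
      obtain ⟨l', hl', hl2'⟩ := h6 j hj
      have hlt : p (r + i) < p (r + j) := Nat.nth_strictMono Nat.infinite_setOfPred_prime (by omega)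
      have hll : l < l' := by omega
      have heq : p (r + j) - p (r + i) = l' - l := by omega
      rw [heq]
      exact hsW l hl l' hl' hll
    refine ⟨⟨h1, h2, ?_, ⟨v - m, ?_⟩, h3, hcc.trans h4, ?_⟩, fun i j hij hj => (hdiff i j hij hj).2⟩
    · intro i hi
      obtain ⟨l, hl, hl2⟩ := h6 i hi
      rw [hl2]
      have h7 : q ∣ l := dvd_trans (Dvd.intro_left _ rfl) (hsQ l hl)
      have h8 : m + l ≡ a + 0 [MOD q] := h5.add ((Nat.modEq_zero_iff_dvd).2 h7)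
      exact h8
    · intro i hi
      obtain ⟨l, hl, hl2⟩ := h6 i hi
      rw [hl2]
      have h7 := hsE l hl
      have h8 : (((m + l : ℕ) : ℤ)) + (v - m) = v + l := by push_cast; ring
      rw [h8]
      exact h7
    · intro i hi
      have h7 := (hdiff i (i + 1) (Nat.lt_succ_self i) hi).1
      have h8 : (T : ℝ) ≤ ((p (r + (i + 1)) - p (r + i) : ℕ) : ℝ) := by exact_mod_cast h7
      have hlt : p (r + i) < p (r + (i + 1)) := Nat.nth_strictMono Nat.infinite_setOfPred_prime (by omega)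
      rw [Nat.cast_sub hlt.le, ← add_assoc] at h8
      linarith
  exact_mod_cast Set.ncard_le_ncard hsub hfin

/-- **Bounded clusters, uniformly over all completely multiplicative functions.** -/
theorem clusters {G : Type*} [CommGroup G] [TopologicalSpace G] [IsTopologicalGroup G] [CompactSpace G]
    [T2Space G] (V : Set G) (hV : V ∈ 𝓝 (1 : G)) (N : ℕ) (hN : N ≠ 0) (k q : ℕ) (hq : Squarefree q)
    (δ : ℝ) (hδ : 0 < δ) :
    ∃ (B K : ℕ) (c : ℝ), 0 < c ∧ ∀ᶠ X : ℝ in atTop, ∀ a : ℕ, a.Coprime q → ∀ g : ℕ → G, Mul g →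
    ∀ E : Set ℤ, DenseS E δ B →
    X ^ (6 / 7 : ℝ) ≤ ({n : ℕ | (X < (p n : ℝ) ∧ (p (n + k) : ℝ) ≤ 4 * X ∧ (∀ i ≤ k, p (n + i) ≡ a [MOD q]) ∧
      (∃ s : ℤ, ∀ i ≤ k, (p (n + i) : ℤ) + s ∈ E) ∧ p (n + k) ≤ p n + B ∧
      1 ≤ n ∧ c * ff X ≤ (p n : ℝ) - p (n - 1) ∧
      {p' : ℕ | p'.Prime ∧ |(p' : ℝ) - p n| ≤ c * ff X}.ncard ≤ K) ∧
      ∀ i j, i < j → j ≤ k → g (p (n + j) - p (n + i)) / g N ∈ V}.ncard : ℝ) := by
  obtain ⟨K, hK⟩ := eng k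
  obtain ⟨c₀, hc₀, hX⟩ := hK q hq
  have hq0 : q ≠ 0 := hq.ne_zero
  obtain ⟨K', C₁, hdense⟩ := to_dense δ hδ K
  obtain ⟨B, hB⟩ := unif G V hV N hN K' (K.factorial * q) (mul_ne_zero (Nat.factorial_ne_zero K) hq0)
  refine ⟨(B + 1) * (C₁ + 1), K, c₀, hc₀, ?_⟩
  filter_upwards [hX, ev_large (((B + 1 : ℕ) : ℝ) / c₀)] with X hXX hXl
  intro a ha g hg E hE
  obtain ⟨s', hs'K, hs'Q, hs'B, hs'V⟩ := hB g hg
  obtain ⟨u, H, hH, hEH⟩ := hE
  have hH' : (B + 1) * (C₁ + 1) ≤ H := by exact_mod_cast hH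
  obtain ⟨v, s, hss, hsK, hsE⟩ := hdense (B + 1) 1 E u H (by omega) le_rfl (by
    rw [mul_one]
    exact le_trans (Nat.mul_le_mul_left _ (Nat.le_succ C₁)) hH') hEH s' hs'K (fun l hl => by
      rw [mul_one]
      exact (hs'B l hl).trans (Nat.le_succ B))
  have hsB : ∀ l ∈ s, (l : ℝ) ≤ c₀ * ff X := by
    intro l hl
    have h1 : (l : ℝ) ≤ ((B + 1 : ℕ) : ℝ) := by exact_mod_cast (hs'B l (hss hl)).trans (Nat.le_succ B)
    rw [div_le_iff₀ hc₀] at hXl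
    linarith
  refine (hXX a ha s hsK (fun l hl => hs'Q l (hss hl)) hsB).trans ?_
  have hfin : {n : ℕ | (X < (p n : ℝ) ∧ (p (n + k) : ℝ) ≤ 4 * X ∧ (∀ i ≤ k, p (n + i) ≡ a [MOD q]) ∧
      (∃ s : ℤ, ∀ i ≤ k, (p (n + i) : ℤ) + s ∈ E) ∧ p (n + k) ≤ p n + (B + 1) * (C₁ + 1) ∧
      1 ≤ n ∧ c₀ * ff X ≤ (p n : ℝ) - p (n - 1) ∧
      {p' : ℕ | p'.Prime ∧ |(p' : ℝ) - p n| ≤ c₀ * ff X}.ncard ≤ K) ∧
      ∀ i j, i < j → j ≤ k → g (p (n + j) - p (n + i)) / g N ∈ V}.Finite := by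
    apply (Set.finite_Iic ⌊4 * X⌋₊).subset
    intro r hr
    have h1 : r ≤ p (r + k) := by
      refine le_trans (Nat.le_add_right r k) ?_
      exact (Nat.nth_strictMono Nat.infinite_setOfPred_prime).le_apply
    have h2 : (r : ℝ) ≤ 4 * X := le_trans (by exact_mod_cast h1) hr.1.2.1
    exact Set.mem_Iic.2 (Nat.le_floor h2)
  have hsub : {r : ℕ | BlockAt k q a c₀ X s r} ⊆
    {n : ℕ | (X < (p n : ℝ) ∧ (p (n + k) : ℝ) ≤ 4 * X ∧ (∀ i ≤ k, p (n + i) ≡ a [MOD q]) ∧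
      (∃ s : ℤ, ∀ i ≤ k, (p (n + i) : ℤ) + s ∈ E) ∧ p (n + k) ≤ p n + (B + 1) * (C₁ + 1) ∧
      1 ≤ n ∧ c₀ * ff X ≤ (p n : ℝ) - p (n - 1) ∧
      {p' : ℕ | p'.Prime ∧ |(p' : ℝ) - p n| ≤ c₀ * ff X}.ncard ≤ K) ∧
      ∀ i j, i < j → j ≤ k → g (p (n + j) - p (n + i)) / g N ∈ V} := by
    rintro r ⟨h1, h2, ⟨h3, h4⟩, m, h5, h6, h9⟩
    refine ⟨⟨h1, h2, ?_, ⟨v - m, ?_⟩, ?_, h3, h4, ?_⟩, ?_⟩
    · intro i hi
      obtain ⟨l, hl, hl2⟩ := h6 i hi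
      rw [hl2]
      have h7 : q ∣ l := dvd_trans (Dvd.intro_left _ rfl) (hs'Q l (hss hl))
      have h8 : m + l ≡ a + 0 [MOD q] := h5.add ((Nat.modEq_zero_iff_dvd).2 h7)
      exact h8
    · intro i hi
      obtain ⟨l, hl, hl2⟩ := h6 i hi
      rw [hl2]
      have h7 := hsE l hl
      have h8 : (((m + l : ℕ) : ℤ)) + (v - m) = v + l := by push_cast; ring
      rw [h8]
      exact h7
    · obtain ⟨l, hl, hl2⟩ := h6 k le_rfl
      obtain ⟨l₀, hl₀, hl₀2⟩ := h6 0 (Nat.zero_le _)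
      rw [add_zero] at hl₀2
      have h7 := hs'B l (hss hl)
      have h8 : B ≤ (B + 1) * (C₁ + 1) := by nlinarith
      omega
    · have h7 : {p' : ℕ | p'.Prime ∧ |(p' : ℝ) - p r| ≤ c₀ * ff X} ⊆
          ((s.image (fun l => m + l) : Finset ℕ) : Set ℕ) := by
        rintro p' ⟨hp', hp''⟩
        obtain ⟨l, hl, hl2⟩ := h9 p' hp' hp''
        rw [mem_coe, mem_image]
        exact ⟨l, hl, hl2.symm⟩
      refine (Set.ncard_le_ncard h7 (Set.toFinite _)).trans ?_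
      rw [Set.ncard_coe_finset]
      exact card_image_le.trans hsK.le
    · intro i j hij hj
      obtain ⟨l, hl, hl2⟩ := h6 i (hij.le.trans hj)
      obtain ⟨l', hl', hl2'⟩ := h6 j hj
      have hlt : p (r + i) < p (r + j) := Nat.nth_strictMono Nat.infinite_setOfPred_prime (by omega)
      have hll : l < l' := by omega
      have heq : p (r + j) - p (r + i) = l' - l := by omega
      rw [heq]
      exact hs'V l (hss hl) l' (hss hl') hll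
  exact_mod_cast Set.ncard_le_ncard hsub hfin

end Pool.Agent.V5helper13.BG
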