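import Pool.Agent.V5helper13.BG.Unif

set_option autoImplicit false

/-!
# All scales, uniformly over the finite-valued completely multiplicative functions (helper13)
-/

namespace Pool.Agent.V5helper13.BG

open Filter Topology Finset

/-- completely multiplicative -/
def Mul {G : Type*} [Mul G] (g : ℕ → G) : Prop := ∀ m n : ℕ, m ≠ 0 → n ≠ 0 → g (m * n) = g m * g n

theorem Mul.one {G : Type*} [CommGroup G] {g : ℕ → G} (hg : Mul g) : g 1 = 1 := by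
  have h := hg 1 1 one_ne_zero one_ne_zero
  rw [mul_one] at h
  exact (mul_eq_left.1 h.symm)

theorem Mul.pow {G : Type*} [CommGroup G] {g : ℕ → G} (hg : Mul g) (m : ℕ) (hm : m ≠ 0) (n : ℕ) :
    g (m ^ n) = g m ^ n := by
  induction n with
  | zero => rw [pow_zero, pow_zero, hg.one]
  | succ n ih => rw [pow_succ, hg _ _ (pow_ne_zero _ hm) hm, ih, pow_succ]

/-- from a set of positions to a subset in a translate of a dense set -/
theorem to_dense (δ : ℝ) (hδ : 0 < δ) (K : ℕ) : ∃ K' C₁ : ℕ, ∀ (C' T : ℕ) (E : Set ℤ) (u : ℤ) (H : ℕ),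
    1 ≤ C' → 1 ≤ T → C' * C₁ * T ≤ H → δ * H ≤ ({t : ℕ | t < H ∧ u + t ∈ E}.ncard : ℝ) →
    ∀ s' : Finset ℕ, s'.card = K' → (∀ l ∈ s', l ≤ C' * T) →
    ∃ (v : ℤ) (s : Finset ℕ), s ⊆ s' ∧ s.card = K ∧ ∀ l ∈ s, v + (l : ℤ) ∈ E := by
  classical
  obtain ⟨K', hK'⟩ : ∃ K' : ℕ, (K : ℝ) ≤ δ / 2 * K' := by
    obtain ⟨K', hK'⟩ := exists_nat_ge ((K : ℝ) / (δ / 2))
    refine ⟨K', ?_⟩
    rw [div_le_iff₀ (by positivity)] at hK'
    linarith
  obtain ⟨C₁, hC₁⟩ := exists_nat_ge ((1 : ℝ) / (δ / 2))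
  rw [div_le_iff₀ (by positivity)] at hC₁
  refine ⟨K', C₁, fun C' T E u H hC' hT hH hE s' hs'c hs'C => ?_⟩
  have hC₁0 : 0 < C₁ := by
    rcases Nat.eq_zero_or_pos C₁ with h | h
    · rw [h] at hC₁
      norm_num at hC₁
    · exact h
  have hH0 : 0 < H := lt_of_lt_of_le (Nat.mul_pos (Nat.mul_pos hC' hC₁0) hT) hH
  obtain ⟨x, -, hx⟩ := avg δ s' E u H (C' * T) hH0 hs'C (by
    have h2 : (C' : ℝ) * C₁ * T ≤ H := by exact_mod_cast hH
    have h3 : (0 : ℝ) ≤ C' * T := by positivity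
    push_cast
    calc (C' : ℝ) * T = C' * T * 1 := by ring
      _ ≤ C' * T * (C₁ * (δ / 2)) := mul_le_mul_of_nonneg_left hC₁ h3
      _ = δ / 2 * (C' * C₁ * T) := by ring
      _ ≤ δ / 2 * H := mul_le_mul_of_nonneg_left h2 (by positivity)) hE
  rw [hs'c] at hx
  have h1 : (K : ℝ) ≤ ((s'.filter (fun l : ℕ => u + ((x + l : ℕ) : ℤ) ∈ E)).card : ℝ) := hK'.trans hx
  have h2 : K ≤ (s'.filter (fun l : ℕ => u + ((x + l : ℕ) : ℤ) ∈ E)).card := by exact_mod_cast h1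
  obtain ⟨s, hs, hsK⟩ := exists_subset_card_eq h2
  have hmem : ∀ l ∈ s, l ∈ s' ∧ u + ((x + l : ℕ) : ℤ) ∈ E := fun l hl => mem_filter.1 (hs hl)
  refine ⟨u + x, s, fun l hl => (hmem l hl).1, hsK, ?_⟩
  intro l hl
  have h3 := (hmem l hl).2
  push_cast at h3
  rwa [← add_assoc] at h3

/-- **All scales.** -/
theorem scale {G : Type*} [CommGroup G] [TopologicalSpace G] [IsTopologicalGroup G] [CompactSpace G] [T2Space G]
    (F : Type*) [CommGroup F] [Finite F]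
    (g : ℕ → G) (hg : Mul g) (N : ℕ) (hN : N ≠ 0)
    (W : Set G) (hW : W ∈ 𝓝 (g N)) (K Q : ℕ) (hQ : Q ≠ 0) (δ : ℝ) (hδ : 0 < δ) :
    ∃ C : ℕ, 1 ≤ C ∧ ∀ h : ℕ → F, Mul h → ∀ T : ℕ, 1 ≤ T → ∀ (E : Set ℤ) (u : ℤ) (H : ℕ), C * T ≤ H →
      δ * H ≤ ({t : ℕ | t < H ∧ u + t ∈ E}.ncard : ℝ) →
      ∃ (v : ℤ) (s : Finset ℕ), s.card = K ∧ (∀ l ∈ s, v + (l : ℤ) ∈ E) ∧ (∀ l ∈ s, Q ∣ l) ∧
      (∀ l ∈ s, l ≤ C * T) ∧
      ∀ l ∈ s, ∀ l' ∈ s, l < l' → T ≤ l' - l ∧ g (l' - l) ∈ W ∧ h (l' - l) = h N := by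
  classical
  let _ : TopologicalSpace F := ⊥
  have _ : DiscreteTopology F := ⟨rfl⟩
  have hW' : {x : G | g N * x ∈ W} ∈ 𝓝 (1 : G) := by
    have hc : Continuous (fun x : G => g N * x) := continuous_const.mul continuous_id
    apply hc.continuousAt.preimage_mem_nhds
    rwa [mul_one]
  obtain ⟨V, hVo, hV1, hVV⟩ := exists_open_nhds_one_mul_subset hW'
  obtain ⟨K', C₁, hdense⟩ := to_dense δ hδ K
  have hVF : V ×ˢ ({1} : Set F) ∈ 𝓝 (1 : G × F) := by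
    rw [show (1 : G × F) = (1, 1) from rfl, nhds_prod_eq]
    exact prod_mem_prod (hVo.mem_nhds hV1) (by rw [nhds_discrete]; exact Set.mem_singleton _)
  obtain ⟨B, hB⟩ := unif (G × F) (V ×ˢ ({1} : Set F)) hVF N hN K' Q hQ
  obtain ⟨e, he⟩ : ∃ e : ℕ, e = Nat.card F := ⟨_, rfl⟩
  have he1 : 1 ≤ e := by rw [he]; exact Nat.card_pos
  have heF : ∀ x : F, x ^ e = 1 := fun x => by rw [he]; exact pow_card_eq_one'
  obtain ⟨D, hD⟩ : ∃ D : ℕ, D = 2 ^ e := ⟨_, rfl⟩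
  have hD2 : 2 ≤ D := by
    rw [hD]
    calc 2 = 2 ^ 1 := (pow_one 2).symm
      _ ≤ 2 ^ e := Nat.pow_le_pow_right (by norm_num) he1
  obtain ⟨U, hU⟩ := syn (g D) (hVo.mem_nhds hV1)
  refine ⟨(B + 1) * (D ^ (U + 1)) * (C₁ + 1), ?_, fun h hh T hT E u H hH hE => ?_⟩
  · exact Nat.mul_pos (Nat.mul_pos (by omega) (pow_pos (by omega) _)) (by omega)
  obtain ⟨s₀, hs₀1, hs₀2, hs₀3, hs₀4⟩ := hB (fun n => (g n, h n)) (fun m n hm hn => by
    rw [hg m n hm hn, hh m n hm hn]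
    rfl)
  obtain ⟨b₀, hb1, hb2⟩ : ∃ b₀ : ℕ, T ≤ D ^ b₀ ∧ D ^ b₀ ≤ D * T := by
    refine ⟨Nat.clog D T, Nat.le_pow_clog (by omega) T, ?_⟩
    rcases Nat.eq_or_lt_of_le hT with h1 | h1
    · rw [← h1, Nat.clog_one_right, pow_zero]
      omega
    · have h2 := Nat.pow_pred_clog_lt_self (b := D) (by omega) h1
      have h3 : 0 < Nat.clog D T := Nat.clog_pos (by omega) (by omega)
      have h4 : D ^ Nat.clog D T = D * D ^ (Nat.clog D T).pred := by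
        rw [← pow_succ']
        congr 1
        have := Nat.succ_pred_eq_of_pos h3
        omega
      rw [h4]
      exact Nat.mul_le_mul_left _ h2.le
  obtain ⟨i, hi, hiV⟩ := hU b₀
  obtain ⟨y, hy⟩ : ∃ y : ℕ, y = D ^ (b₀ + i) := ⟨_, rfl⟩
  have hD0 : D ≠ 0 := by omega
  have hy0 : y ≠ 0 := by rw [hy]; exact pow_ne_zero _ hD0
  have hyT : T ≤ y := by
    rw [hy]
    exact hb1.trans (Nat.pow_le_pow_right (by omega) (Nat.le_add_right _ _))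
  have hyC : y ≤ D ^ (U + 1) * T := by
    rw [hy, pow_add]
    calc D ^ b₀ * D ^ i ≤ (D * T) * D ^ U :=
          Nat.mul_le_mul hb2 (Nat.pow_le_pow_right (by omega) hi)
      _ = D ^ (U + 1) * T := by ring
  have hgy : g y ∈ V := by
    rw [hy, hg.pow D hD0]
    exact hiV
  have hhy : h y = 1 := by
    rw [hy, hh.pow D hD0, hD, hh.pow 2 two_ne_zero, ← pow_mul, pow_mul, heF, one_pow]
  have hinj : Function.Injective (fun l => y * l) := fun l l' hll =>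
    Nat.eq_of_mul_eq_mul_left (Nat.pos_of_ne_zero hy0) hll
  obtain ⟨v, s, hss, hsK, hsE⟩ := hdense ((B + 1) * D ^ (U + 1)) T E u H
    (Nat.mul_pos (by omega) (pow_pos (by omega) _)) hT
    (le_trans (Nat.mul_le_mul_right _ (Nat.mul_le_mul_left _ (Nat.le_succ C₁))) hH) hE
    (s₀.image (fun l => y * l)) (by rw [card_image_of_injective _ hinj, hs₀1]) (by
      intro l hl
      obtain ⟨l₀, hl₀, rfl⟩ := mem_image.1 hl
      have h1 := hs₀3 l₀ hl₀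
      calc y * l₀ ≤ (D ^ (U + 1) * T) * (B + 1) := Nat.mul_le_mul hyC (by omega)
        _ = _ := by ring)
  refine ⟨v, s, hsK, hsE, ?_, ?_, ?_⟩
  · intro l hl
    obtain ⟨l₀, hl₀, rfl⟩ := mem_image.1 (hss hl)
    exact Dvd.dvd.mul_left (hs₀2 l₀ hl₀) _
  · intro l hl
    obtain ⟨l₀, hl₀, rfl⟩ := mem_image.1 (hss hl)
    have h1 := hs₀3 l₀ hl₀
    calc y * l₀ ≤ (D ^ (U + 1) * T) * (B + 1) := Nat.mul_le_mul hyC (by omega)
      _ = (B + 1) * D ^ (U + 1) * 1 * T := by ring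
      _ ≤ _ := Nat.mul_le_mul_right _ (Nat.mul_le_mul_left _ (by omega))
  · intro l hl l' hl' hll
    obtain ⟨l₀, hl₀, rfl⟩ := mem_image.1 (hss hl)
    obtain ⟨l₀', hl₀', rfl⟩ := mem_image.1 (hss hl')
    have hll₀ : l₀ < l₀' := Nat.lt_of_mul_lt_mul_left hll
    have hsub : y * l₀' - y * l₀ = y * (l₀' - l₀) := (Nat.mul_sub _ _ _).symm
    have hpos : l₀' - l₀ ≠ 0 := by omega
    have h1 := hs₀4 l₀ hl₀ l₀' hl₀' hll₀
    rw [Set.mem_prod] at h1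
    obtain ⟨h2, h3⟩ := h1
    rw [hsub]
    refine ⟨hyT.trans (Nat.le_mul_of_pos_right _ (Nat.pos_of_ne_zero hpos)), ?_, ?_⟩
    · rw [hg y _ hy0 hpos]
      have h4 : g y * g (l₀' - l₀) = g N * (g y * (g (l₀' - l₀) / g N)) := by
        rw [mul_left_comm, mul_div_cancel]
      rw [h4]
      exact hVV (Set.mul_mem_mul hgy h2)
    · rw [hh y _ hy0 hpos, hhy, one_mul]
      have h4 : h (l₀' - l₀) / h N = 1 := h3
      exact div_eq_one.1 h4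

end Pool.Agent.V5helper13.BG
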