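import Pool.Agent.V5helper13.BG.Dens

set_option autoImplicit false

/-!
# Uniformity over all completely multiplicative functions (helper13)
-/

namespace Pool.Agent.V5helper13.BG

open Filter Topology Finset

/-- the completely multiplicative functions form a compact set -/
theorem compact_mult (G : Type*) [CommGroup G] [TopologicalSpace G] [IsTopologicalGroup G] [CompactSpace G]
    [T2Space G] : IsCompact {g : ℕ → G | ∀ m n : ℕ, m ≠ 0 → n ≠ 0 → g (m * n) = g m * g n} := by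
  apply IsClosed.isCompact
  simp only [Set.ofPred_forall]
  refine isClosed_iInter fun m => isClosed_iInter fun n => isClosed_iInter fun _ => isClosed_iInter fun _ => ?_
  exact isClosed_eq (continuous_apply _) ((continuous_apply m).mul (continuous_apply n))

/-- **Uniformity.** -/
theorem unif (G : Type*) [CommGroup G] [TopologicalSpace G] [IsTopologicalGroup G] [CompactSpace G]
    [T2Space G] (V : Set G) (hV : V ∈ 𝓝 (1 : G)) (N : ℕ) (hN : N ≠ 0) (K Q : ℕ) (hQ : Q ≠ 0) :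
    ∃ B : ℕ, ∀ g : ℕ → G, (∀ m n : ℕ, m ≠ 0 → n ≠ 0 → g (m * n) = g m * g n) →
      ∃ s : Finset ℕ, s.card = K ∧ (∀ l ∈ s, Q ∣ l) ∧ (∀ l ∈ s, l ≤ B) ∧
        ∀ l ∈ s, ∀ l' ∈ s, l < l' → g (l' - l) / g N ∈ V := by
  classical
  obtain ⟨V₀, hV₀V, hV₀o, hV₀1⟩ := mem_nhds_iff.1 hV
  have hop : ∀ s : {s : Finset ℕ // s.card = K ∧ ∀ l ∈ s, Q ∣ l},
      IsOpen {g : ℕ → G | ∀ l ∈ s.1, ∀ l' ∈ s.1, l < l' → g (l' - l) / g N ∈ V₀} := by
    intro s
    have h1 : {g : ℕ → G | ∀ l ∈ s.1, ∀ l' ∈ s.1, l < l' → g (l' - l) / g N ∈ V₀} =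
        ⋂ x ∈ (s.1 ×ˢ s.1 : Finset (ℕ × ℕ)), {g : ℕ → G | x.1 < x.2 → g (x.2 - x.1) / g N ∈ V₀} := by
      ext g
      simp only [Set.mem_ofPred_eq, Set.mem_iInter, mem_product]
      constructor
      · rintro h ⟨l, l'⟩ ⟨hl, hl'⟩ hll
        exact h l hl l' hl' hll
      · intro h l hl l' hl' hll
        exact h ⟨l, l'⟩ ⟨hl, hl'⟩ hll
    rw [h1]
    refine isOpen_biInter_finset fun x _ => ?_
    by_cases hx : x.1 < x.2
    · have h2 : {g : ℕ → G | x.1 < x.2 → g (x.2 - x.1) / g N ∈ V₀} =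
          (fun g : ℕ → G => g (x.2 - x.1) / g N) ⁻¹' V₀ := by
        ext g
        simp [hx]
      have hc : Continuous (fun g : ℕ → G => g (x.2 - x.1) / g N) :=
        (continuous_apply (x.2 - x.1)).div' (continuous_apply N)
      rw [h2]
      exact hV₀o.preimage hc
    · have h2 : {g : ℕ → G | x.1 < x.2 → g (x.2 - x.1) / g N ∈ V₀} = Set.univ := by
        ext g
        simp [hx]
      rw [h2]
      exact isOpen_univ
  obtain ⟨t, ht⟩ := (compact_mult G).elim_finite_subcover _ hop (by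
    intro g hg
    have hW : {x : G | x / g N ∈ V₀} ∈ 𝓝 (g N) := by
      have hc : Continuous (fun x : G => x / g N) := continuous_id.div' continuous_const
      apply hc.continuousAt.preimage_mem_nhds
      rw [div_self']
      exact hV₀o.mem_nhds hV₀1
    obtain ⟨C, hC, hcomb⟩ := comb g hg N hN _ hW K Q hQ
    obtain ⟨s, hs1, hs2, hs3, hs4⟩ := hcomb 1 le_rfl
    rw [Set.mem_iUnion]
    exact ⟨⟨s, hs1, hs2⟩, fun l hl l' hl' hll => (hs4 l hl l' hl' hll).2⟩)
  refine ⟨t.sup (fun s => s.1.sup id), fun g hg => ?_⟩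
  have h1 := ht hg
  simp only [Set.mem_iUnion] at h1
  obtain ⟨s, hs, hsg⟩ := h1
  refine ⟨s.1, s.2.1, s.2.2, fun l hl => ?_, fun l hl l' hl' hll => hV₀V (hsg l hl l' hl' hll)⟩
  exact (Finset.le_sup (f := id) hl).trans (Finset.le_sup (f := fun s : {s : Finset ℕ // s.card = K ∧
    ∀ l ∈ s, Q ∣ l} => s.1.sup id) hs)

end Pool.Agent.V5helper13.BG
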